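import Pool.Agent.W805.LR.Stm5

set_option autoImplicit false

namespace Pool.Agent.W54.PD.TL

open Finset Equiv Filter Topology
open Pool.Agent.W805.LR Pool.Agent.W805.PD

lemma ringSum_nonneg {V : Type} [Fintype V] [DecidableEq V] (J : V → V → ℝ)
    (hJ : ∀ x y, 0 ≤ J x y) (m : ℕ) : ∀ g, 0 ≤ ringSum J m g := by
  induction m with
  | zero => intro g; simp only [ringSum]; split_ifs <;> norm_num
  | succ m ih =>
    intro g
    simp only [ringSum]
    refine sum_nonneg fun x _ => sum_nonneg fun y _ => mul_nonneg ?_ (ih _)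
    have := hJ x y
    positivity

lemma stirMass_nonneg {V : Type} [Fintype V] [DecidableEq V] (J : V → V → ℝ)
    (hJ : ∀ x y, 0 ≤ J x y) (t : ℝ) (ht : 0 ≤ t) (g : Perm V) : 0 ≤ stirMass J t g :=
  tsum_nonneg fun m => mul_nonneg (by positivity) (ringSum_nonneg J hJ m g)

lemma uavg_abs_le {A : Type} [Fintype A] (F : A → ℝ) (hF : ∀ a, |F a| ≤ 1) : |uavg F| ≤ 1 := by
  unfold uavg
  rw [abs_div, Nat.abs_cast]
  apply div_le_one_of_le₀
  · calc |∑ a, F a| ≤ ∑ a, |F a| := abs_sum_le_sum_abs _ _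
      _ ≤ ∑ a : A, 1 := sum_le_sum fun a _ => hF a
      _ = Fintype.card A := by simp
  · positivity

lemma bdist_le {d L : ℕ} [NeZero L] (x y : Fin d → ZMod L) : bdist x y ≤ L := by
  unfold bdist
  refine Finset.sup_le fun a _ => ?_
  have h1 := ZMod.val_lt (x a)
  have h2 := ZMod.val_lt (y a)
  omega

lemma bdist_pos {d L : ℕ} [NeZero L] {x y : Fin d → ZMod L} (h : x ≠ y) : 1 ≤ bdist x y := by
  obtain ⟨a, ha⟩ := Function.ne_iff.1 h
  have h1 : 1 ≤ (((x a).val : ℤ) - (y a).val).natAbs := by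
    rw [Nat.one_le_iff_ne_zero, Int.natAbs_ne_zero, sub_ne_zero]
    intro h2
    exact ha (ZMod.val_injective L (by exact_mod_cast h2))
  exact h1.trans (Finset.le_sup (f := fun a => (((x a).val : ℤ) - (y a).val).natAbs)
    (Finset.mem_univ a))

lemma card_torus (d L : ℕ) [NeZero L] : Fintype.card (Fin d → ZMod L) = L ^ d := by
  rw [Fintype.card_fun, ZMod.card, Fintype.card_fin]

theorem main (hinv : S_inv) (hfix : S_fix) (hpig : S_pigeon) : S_trace := by
  intro d σ lam t0 m δ hd hσ hσd hlam ht0 hδ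
  obtain ⟨K0, C, hC, hfix'⟩ := hfix m (δ / 3) (by positivity)
  -- number of scales
  obtain ⟨I, hI⟩ := exists_nat_ge (9 * C / δ + 1)
  have hI0 : (0 : ℝ) < I := by
    have : 0 < 9 * C / δ := by positivity
    linarith
  have hI0' : 0 < I := by exact_mod_cast hI0
  have hCI : C * (3 / I) ≤ δ / 3 := by
    rw [mul_div_assoc', div_le_iff₀ hI0]
    have h1 : 9 * C / δ ≤ I := by linarith
    rw [div_le_iff₀ hδ] at h1
    linarith
  -- first scale
  obtain ⟨i0, hi0⟩ := pow_unbounded_of_one_lt (max (K0 : ℝ) (1 / δ)) (show (1 : ℝ) < 2 by norm_num)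
  have hi0a : K0 ≤ 2 ^ i0 := by
    have : (K0 : ℝ) < 2 ^ i0 := lt_of_le_of_lt (le_max_left _ _) hi0
    exact_mod_cast this.le
  have hi0b : 1 / δ ≤ 2 ^ i0 := (le_max_right _ _).trans hi0.le
  set K1 : ℕ := 2 ^ (i0 + I) with hK1
  choose! n0 hn0 using hfix'
  set n1 : ℕ := (Finset.range (K1 + 1)).sup n0 with hn1
  -- the rate of the additional transpositions tends to infinity
  have hlim : Tendsto (fun L : ℕ => t0 * (lam / 4) * (L : ℝ) ^ ((d : ℝ) - σ)) atTop atTop := by
    have h1 : Tendsto (fun L : ℕ => (L : ℝ) ^ ((d : ℝ) - σ)) atTop atTop :=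
      (tendsto_rpow_atTop (by linarith)).comp tendsto_natCast_atTop_atTop
    exact h1.const_mul_atTop (by positivity)
  obtain ⟨L1, hL1⟩ := (hlim.eventually_ge_atTop ((K1 / (δ / 3)) ^ 2)).exists_forall_of_atTop
  refine ⟨K1, max (max L1 n1) 1, fun t ht L _ hL J hJ => ?_⟩
  have hLa : L1 ≤ L := (le_max_left _ _).trans ((le_max_left _ _).trans hL)
  have hLb : n1 ≤ L := (le_max_right _ _).trans ((le_max_left _ _).trans hL)
  have hLc : 1 ≤ L := (le_max_right _ _).trans hL
  have htp : 0 < t := by linarith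
  have hLpos : (0 : ℝ) < L := by exact_mod_cast hLc
  set κ : ℝ := lam / 2 * (L : ℝ) ^ (-((d : ℝ) + σ)) with hκ
  have hκ0 : 0 < κ := by positivity
  set J0 : (Fin d → ZMod L) → (Fin d → ZMod L) → ℝ := fun x y => J x y - if x ≠ y then κ else 0
    with hJ0
  have hJlow : ∀ x y, x ≠ y → lam * (L : ℝ) ^ (-((d : ℝ) + σ)) ≤ J x y := by
    intro x y hxy
    refine le_trans ?_ (hJ.2.2 x y hxy)
    have h4 : (0 : ℝ) < bdist x y := by exact_mod_cast bdist_pos hxy
    have h5 : (bdist x y : ℝ) ≤ L := by exact_mod_cast bdist_le x y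
    exact mul_le_mul_of_nonneg_left
      (Real.rpow_le_rpow_of_nonpos h4 h5 (by have : (0 : ℝ) ≤ d := by positivity
                                             linarith)) hlam.le
  have hJ0n : ∀ x y, 0 ≤ J0 x y := by
    intro x y
    simp only [hJ0]
    split_ifs with h
    · have := hJlow x y h
      have h2 : κ ≤ lam * (L : ℝ) ^ (-((d : ℝ) + σ)) := by
        rw [hκ]
        have : 0 < (L : ℝ) ^ (-((d : ℝ) + σ)) := by positivity
        nlinarith
      linarith
    · have h' : x = y := not_not.mp h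
      rw [h', hJ.2.1, sub_zero]
  have hJn : ∀ x y, 0 ≤ J x y := by
    intro x y
    have h1 := hJ0n x y
    simp only [hJ0] at h1
    split_ifs at h1 <;> linarith
  have hJe : (fun x y => J0 x y + if x ≠ y then κ else 0) = J := by
    funext x y
    simp only [hJ0]
    ring
  have hP : ∀ g, 0 ≤ stirMass J t g := stirMass_nonneg J hJn t htp.le
  obtain ⟨i, hi1, hi2, hi3⟩ := hpig I i0 (Fin d → ZMod L) (stirMass J t) hI0' hP
  set K : ℕ := 2 ^ i with hK
  have hKK1 : K ≤ K1 := by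
    rw [hK, hK1]
    exact Nat.pow_le_pow_right (by norm_num) hi2.le
  have hK0K : K0 ≤ K := hi0a.trans (by rw [hK]; exact Nat.pow_le_pow_right (by norm_num) hi1)
  have hKr : (2 : ℝ) ^ i0 ≤ K := by
    rw [hK]
    push_cast
    exact pow_le_pow_right₀ (by norm_num) hi1
  refine ⟨K, hi0b.trans hKr, hKK1, fun G hG => ?_⟩
  have hcard : Fintype.card (Fin d → ZMod L) = L ^ d := card_torus d L
  have hn : n0 K ≤ Fintype.card (Fin d → ZMod L) := by
    rw [hcard]
    calc n0 K ≤ n1 := Finset.le_sup (f := n0) (Finset.mem_range.mpr (by omega))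
      _ ≤ L := hLb
      _ = L ^ 1 := (pow_one L).symm
      _ ≤ L ^ d := Nat.pow_le_pow_right hLc hd
  -- first error
  have e1 := hinv (Fin d → ZMod L) J0 t κ K (fun g => uavg fun v : Fin m → (Fin d → ZMod L) =>
    G (rel g v)) hJ0n htp hκ0 (fun g => uavg_abs_le _ fun v => hG _)
  rw [hJe] at e1
  set P : Perm (Fin d → ZMod L) → ℝ := stirMass J t with hPdef
  have hPs : 0 ≤ ∑ g, P g := sum_nonneg fun g _ => hP g
  have e1' : (K : ℝ) / Real.sqrt (t * κ * (Fintype.card (Fin d → ZMod L) : ℝ) ^ 2 / 2) ≤ δ / 3 := by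
    have h1 : t * κ * (Fintype.card (Fin d → ZMod L) : ℝ) ^ 2 / 2 =
        t * (lam / 4) * (L : ℝ) ^ ((d : ℝ) - σ) := by
      rw [hcard, hκ]
      push_cast
      have h2 : (L : ℝ) ^ ((d : ℝ) - σ) = (L : ℝ) ^ (-((d : ℝ) + σ)) * ((L : ℝ) ^ d) ^ 2 := by
        rw [← pow_mul, ← Real.rpow_natCast (L : ℝ) (d * 2), ← Real.rpow_add hLpos]
        congr 1
        push_cast
        ring
      rw [h2]
      ring
    rw [h1]
    have h3 : (K1 / (δ / 3)) ^ 2 ≤ t * (lam / 4) * (L : ℝ) ^ ((d : ℝ) - σ) := by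
      refine (hL1 L hLa).trans ?_
      have : 0 ≤ lam / 4 * (L : ℝ) ^ ((d : ℝ) - σ) := by positivity
      nlinarith
    have h4 : (K1 : ℝ) / (δ / 3) ≤ Real.sqrt (t * (lam / 4) * (L : ℝ) ^ ((d : ℝ) - σ)) := by
      apply Real.le_sqrt_of_sq_le h3
    have h5 : (0 : ℝ) < K1 := by
      rw [hK1]; positivity
    have h6 : 0 < (K1 : ℝ) / (δ / 3) := by positivity
    rw [div_le_iff₀ (by linarith)]
    have h7 : (K : ℝ) ≤ K1 := by exact_mod_cast hKK1
    have h8 : δ / 3 * (K1 / (δ / 3)) = K1 := by field_simp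
    have h9 : δ / 3 * (K1 / (δ / 3)) ≤
        δ / 3 * Real.sqrt (t * (lam / 4) * (L : ℝ) ^ ((d : ℝ) - σ)) :=
      mul_le_mul_of_nonneg_left h4 (by positivity)
    linarith
  -- second error
  have e2 : |∑ g, P g * uavg (fun x : Fin K → (Fin d → ZMod L) × (Fin d → ZMod L) =>
        uavg fun v : Fin m → (Fin d → ZMod L) => G (rel (prodSw x * g) v)) -
      ∑ g, P g * uavg (fun v : Fin m → (Fin d → ZMod L) => pavg (big g K v) G)| ≤
      2 * δ / 3 * ∑ g, P g := by
    rw [← Finset.sum_sub_distrib]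
    have h1 : ∀ g ∈ (univ : Finset (Perm (Fin d → ZMod L))),
        |P g * uavg (fun x : Fin K → (Fin d → ZMod L) × (Fin d → ZMod L) =>
        uavg fun v : Fin m → (Fin d → ZMod L) => G (rel (prodSw x * g) v)) -
        P g * uavg (fun v : Fin m → (Fin d → ZMod L) => pavg (big g K v) G)| ≤
        P g * (δ / 3) + C * (P g * zeta g K) := by
      intro g _
      rw [← mul_sub, abs_mul, abs_of_nonneg (hP g)]
      have h2 := hn0 K hK0K (Fin d → ZMod L) g G hn hG
      have h3 := mul_le_mul_of_nonneg_left h2 (hP g)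
      refine h3.trans (le_of_eq ?_)
      ring
    refine (Finset.abs_sum_le_sum_abs _ _).trans ((Finset.sum_le_sum h1).trans ?_)
    rw [Finset.sum_add_distrib, ← Finset.sum_mul, ← Finset.mul_sum]
    have h4 : C * ∑ g, P g * zeta g K ≤ C * (3 / I * ∑ g, P g) :=
      mul_le_mul_of_nonneg_left hi3 hC.le
    have h5 : C * (3 / I * ∑ g, P g) ≤ δ / 3 * ∑ g, P g := by
      rw [← mul_assoc]
      exact mul_le_mul_of_nonneg_right hCI hPs
    linarith
  have e3 := e1.trans (mul_le_mul_of_nonneg_right e1' hPs)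
  have e4 := abs_sub_le (∑ g, P g * uavg (fun v : Fin m → (Fin d → ZMod L) => G (rel g v)))
    (∑ g, P g * uavg (fun x : Fin K → (Fin d → ZMod L) × (Fin d → ZMod L) =>
        uavg fun v : Fin m → (Fin d → ZMod L) => G (rel (prodSw x * g) v)))
    (∑ g, P g * uavg (fun v : Fin m → (Fin d → ZMod L) => pavg (big g K v) G))
  refine e4.trans ?_
  have e5 : δ * ∑ g, P g = δ / 3 * ∑ g, P g + 2 * δ / 3 * ∑ g, P g := by ring
  rw [e5]
  exact add_le_add e3 e2

end Pool.Agent.W54.PD.TL
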